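import Pool.Agent.H3.MX.Theta

/-!
# Graph products of infinite cyclic groups and finite groups: the comparison theorem with functions
-/

set_option autoImplicit false
set_option linter.unusedSectionVars false

namespace Pool.Agent.H3.MX

open Finset
open Pool.Agent.H4.Atiyah Pool.Agent.H78.RA

section

open Classical

variable {V : Type*} [Fintype V] {Γ : Type*} [Group Γ]

/-- square summable chains supported on the sets which satisfy `P`, with vanishing sums over `K v` -/
structure IsKChain (K : V → Multiset Γ) (P : Finset V → Prop) (f : Finset V → Γ → ℂ) : Prop where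
  supp : ∀ σ g, f σ g ≠ 0 → P σ
  mean : ∀ σ, ∀ v ∈ σ, ∀ g, ((K v).map fun h => f σ (g * h)).sum = 0
  l2 : ∀ σ, Summable fun g => ‖f σ g‖ ^ 2

/-- the boundary: `f (τ ∪ v)` for the letters with `F v`, `f (τ ∪ v) (1 - t v)` for the others -/
noncomputable def bdX (F : V → Prop) (t : V → Γ) (ν : V → ℕ) (f : Finset V → Γ → ℂ) :
    Finset V → Γ → ℂ :=
  fun τ g => ∑ v ∈ τᶜ, (-1) ^ (τ.filter fun u => ν u < ν v).card *
    (if F v then f (insert v τ) g else f (insert v τ) g - f (insert v τ) (g * (t v)⁻¹))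

/-- the operators of the boundary -/
noncomputable def NX (F : V → Prop) (t : V → Γ) (_ : Finset V) (v : V) : BB Γ :=
  if F v then 1 else -Nt (t v)

/-- the comparison operators -/
noncomputable def alX (F : V → Prop) (t : V → Γ) (σ : Finset V) : BB Γ :=
  (-1 : ℂ) ^ (σ.filter fun v => ¬ F v).card • al t (σ.filter fun v => ¬ F v)

theorem eqv_NX (F : V → Prop) (t : V → Γ) (τ : Finset V) (v : V) : Eqv (NX F t τ v) := by
  unfold NX
  split_ifs
  · exact Eqv.one
  · have h : -Nt (t v) = (-1 : ℂ) • Nt (t v) := by rw [neg_smul, one_smul]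
    rw [h]
    exact (eqv_Nt _).smul _

theorem cm_subset (t : V → Γ) {σ τ : Finset V} (h : Cm t σ) (hτ : τ ⊆ σ) : Cm t τ :=
  fun _ ha _ hb hab => h (hτ ha) (hτ hb) hab

theorem al_inj' (t : V → Γ) (σ : Finset V) (hord : ∀ v ∈ σ, ∀ n : ℕ, 0 < n → t v ^ n ≠ 1)
    (x : LL Unit Γ) (hx : al t σ x = 0) : x = 0 := by
  by_cases h : Cm t σ
  · induction σ using Finset.induction_on generalizing x with
    | empty =>
      rw [al_empty] at hx
      exact hx
    | insert v σ hv ih =>
      rw [al_insert t σ v hv h] at hx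
      exact Nt_inj _ (hord v (Finset.mem_insert_self _ _)) _
        (ih (fun u hu => hord u (Finset.mem_insert_of_mem hu)) _ hx
          (cm_subset t h (Finset.subset_insert _ _)))
  · unfold al at hx
    rw [dif_neg h] at hx
    exact hx

theorem Kop_al (t : V → Γ) (K : Multiset Γ) (σ : Finset V)
    (hK : ∀ v ∈ σ, ∀ k ∈ K, k * t v = t v * k) (x : LL Unit Γ) :
    Kop K (al t σ x) = al t σ (Kop K x) := by
  by_cases h : Cm t σ
  · induction σ using Finset.induction_on generalizing x with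
    | empty =>
      rw [al_empty]
      rfl
    | insert v σ hv ih =>
      rw [al_insert t σ v hv h]
      show Kop K (al t σ (Nt (t v) x)) = al t σ (Nt (t v) (Kop K x))
      rw [ih (fun u hu => hK u (Finset.mem_insert_of_mem hu)) _
        (cm_subset t h (Finset.subset_insert _ _)),
        Kop_Nt K (t v) (hK v (Finset.mem_insert_self _ _))]
  · unfold al
    rw [dif_neg h]
    rfl

theorem ev_DopX (F : V → Prop) (t : V → Γ) (ν : V → ℕ) {P Q : Finset V → Prop}
    (hPQ : Faces P Q) (x : LL (Ix P) Γ) (τ : Finset V) (g : Γ) :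
    ev g (cp Q (DopG ν P Q (NX F t) x) τ) = bdX F t ν (fun σ g => ev g (cp P x σ)) τ g := by
  rw [cp_DopG ν hPQ, map_sum]
  unfold bdX
  refine Finset.sum_congr rfl fun v _ => ?_
  rw [ev_smul]
  have h1 : ev g (NX F t τ v (cp P x (insert v τ))) =
      if F v then ev g (cp P x (insert v τ)) else ev g (cp P x (insert v τ)) -
        ev (g * (t v)⁻¹) (cp P x (insert v τ)) := by
    unfold NX
    split_ifs
    · rfl
    · show -(Nt (t v) (cp P x (insert v τ)) ((), g)) = _
      rw [Nt_apply, neg_sub]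
      rfl
  rw [h1]
  congr 1
  unfold sg
  push_cast
  rfl

/-- **The comparison theorem for mixed letters.** -/
theorem approx_mixed (G : SimpleGraph V) (F : V → Prop) (K : V → Multiset Γ) (t : V → Γ)
    (hcomm : ∀ u v, G.Adj u v → ¬ F u → ¬ F v → t u * t v = t v * t u)
    (hord : ∀ v, ¬ F v → ∀ n : ℕ, 0 < n → t v ^ n ≠ 1) (hK0 : ∀ v, ¬ F v → K v = 0)
    (hK : ∀ u v, G.Adj u v → ¬ F v → ∀ k ∈ K u, k * t v = t v * k) (ν : V → ℕ)
    (hν : Function.Injective ν) {P Q R : Finset V → Prop} (hPQ : Faces P Q) (hRP : Faces R P)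
    (hP : ∀ σ, P σ → G.IsClique (σ : Set V)) (hR : ∀ σ, R σ → G.IsClique (σ : Set V))
    (hex : ∀ f : Finset V → LL Unit Γ, (∀ σ, f σ ≠ 0 → P σ) →
      (∀ σ, ∀ v ∈ σ, Kop (K v) (f σ) = 0) → bd ν f = 0 → ∃ y : Finset V → LL Unit Γ,
        (∀ σ, y σ ≠ 0 → R σ) ∧ (∀ σ, ∀ v ∈ σ, Kop (K v) (y σ) = 0) ∧ bd ν y = f)
    (z : Finset V → Γ → ℂ) (hz : IsKChain K P z) (hb : bdX F t ν z = 0) (ε : ℝ) (hε : 0 < ε) :
    ∃ y : Finset V → Γ → ℂ, IsKChain K R y ∧ ∑ σ, ∑' g, ‖z σ g - bdX F t ν y σ g‖ ^ 2 < ε := by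
  have hz' : IsL2 P z := ⟨hz.supp, hz.l2⟩
  have hPR : ∀ σ, (P σ ∨ R σ) → G.IsClique (σ : Set V) := fun σ h => h.elim (hP σ) (hR σ)
  have hCm : ∀ σ, (P σ ∨ R σ) → Cm t (σ.filter fun v => ¬ F v) := by
    intro σ h u hu v hv huv
    obtain ⟨hu1, hu2⟩ := Finset.mem_filter.1 (Finset.mem_coe.1 hu)
    obtain ⟨hv1, hv2⟩ := Finset.mem_filter.1 (Finset.mem_coe.1 hv)
    exact Nt_comm _ _ (hcomm u v (hPR σ h hu1 hv1 huv) hu2 hv2)
  -- the commutation of the sums with the operators
  have hKt : ∀ σ, (P σ ∨ R σ) → ∀ u ∈ σ, ∀ v ∈ σ, ¬ F v → ∀ k ∈ K u, k * t v = t v * k := by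
    intro σ h u hu v hv hFv k hk
    by_cases huv : u = v
    · subst huv
      rw [hK0 u hFv] at hk
      exact absurd hk (Multiset.notMem_zero k)
    · exact hK u v (hPR σ h hu hv huv) hFv k hk
  have hx : toL P hz' ∈ Xs K P := by
    rw [mem_Xs]
    intro σ v hv
    apply ev_ext
    intro g
    rw [map_zero]
    have h1 : ev g (Kop (K v) (cp P (toL P hz') σ)) =
        ((K v).map fun h => ev (g * h) (cp P (toL P hz') σ)).sum := Kop_apply _ _ _
    rw [h1]
    simp_rw [ev_toL]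
    exact hz.mean σ v hv g
  have hd : DopG ν P Q (NX F t) (toL P hz') = 0 := by
    apply cp_ext
    intro τ
    rw [cp_zero]
    apply ev_ext
    intro g
    rw [ev_DopX F t ν hPQ]
    simp_rw [ev_toL]
    rw [hb]
    rfl
  obtain ⟨y, hy1, hy2⟩ := approx_ops ν hν hPQ hRP K (NX F t) (alX F t) (eqv_NX F t)
    (fun σ => (eqv_al t _).smul _) (fun τ v hv h => by
      have h1 := hCm (insert v τ) h
      unfold alX NX
      rw [Finset.filter_insert] at h1 ⊢
      by_cases hF : F v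
      · rw [if_neg (fun h2 => h2 hF), if_pos hF, mul_one]
      · rw [if_pos hF] at h1 ⊢
        have h3 : v ∉ τ.filter fun v => ¬ F v := fun h2 => hv (Finset.mem_filter.1 h2).1
        rw [if_neg hF, al_insert t _ v h3 h1, Finset.card_insert_of_notMem h3, pow_succ, mul_neg,
          mul_one, neg_smul, smul_mul_assoc, mul_neg, smul_neg])
    (fun σ _ x hx => al_inj' t _ (fun v hv => hord v (Finset.mem_filter.1 hv).2) x (by
      have h1 : (-1 : ℂ) ^ (σ.filter fun v => ¬ F v).card • al t (σ.filter fun v => ¬ F v) x = 0 :=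
        hx
      exact (smul_eq_zero.1 h1).resolve_left (pow_ne_zero _ (neg_ne_zero.2 one_ne_zero))))
    (fun τ v _ h u hu x => by
      unfold NX
      by_cases hF : F v
      · rw [if_pos hF]
        rfl
      · rw [if_neg hF]
        show Kop (K u) (-Nt (t v) x) = -Nt (t v) (Kop (K u) x)
        rw [map_neg, Kop_Nt _ _ (hKt _ (Or.inr h) u (Finset.mem_insert_of_mem hu) v
          (Finset.mem_insert_self _ _) hF) x])
    (fun σ h u hu x => by
      show Kop (K u) ((-1 : ℂ) ^ (σ.filter fun v => ¬ F v).card • al t (σ.filter fun v => ¬ F v) x)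
        = (-1 : ℂ) ^ (σ.filter fun v => ¬ F v).card • al t (σ.filter fun v => ¬ F v) (Kop (K u) x)
      rw [map_smul, Kop_al t _ _ (fun v hv =>
        hKt σ h u hu v (Finset.mem_filter.1 hv).1 (Finset.mem_filter.1 hv).2) x])
    hex (toL P hz') hx hd (Real.sqrt ε) (Real.sqrt_pos.2 hε)
  have hy3 := isL2_cp R y
  refine ⟨fun σ g => ev g (cp R y σ), ⟨hy3.supp, ?_, hy3.l2⟩, ?_⟩
  · intro σ v hv g
    have h1 : ev g (Kop (K v) (cp R y σ)) = ((K v).map fun h => ev (g * h) (cp R y σ)).sum :=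
      Kop_apply _ _ _
    rw [← h1, (mem_Xs K R y).1 hy1 σ v hv, map_zero]
  · have h2 : ∀ σ g, z σ g - bdX F t ν (fun σ g => ev g (cp R y σ)) σ g
        = ev g (cp P (toL P hz' - DopG ν R P (NX F t) y) σ) := by
      intro σ g
      rw [← ev_toL P hz', ← ev_DopX F t ν hRP, ← map_sub]
      congr 1
      by_cases h : P σ
      · rw [cp_pos _ _ h, cp_pos _ _ h, cp_pos _ _ h, map_sub]
      · rw [cp_neg _ _ h, cp_neg _ _ h, cp_neg _ _ h, sub_zero]
    simp_rw [h2]
    rw [norm_sq_cp]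
    calc ‖toL P hz' - DopG ν R P (NX F t) y‖ ^ 2 < Real.sqrt ε ^ 2 := by gcongr
      _ = ε := Real.sq_sqrt hε.le


end

end Pool.Agent.H3.MX
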