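import Pool.Agent.H78.RA.GDim

/-!
# Comparison of complexes of invariant subspaces of free modules

`X₂ → X₁ → LL κ₀ G`: closed invariant subspaces of `ℓ²(κ × G)`. If the complex `d` maps injectively
to an exact complex `e` on the same subspaces, then every cycle of `d` is a limit of boundaries.
-/

set_option autoImplicit false
set_option linter.unusedSectionVars false

namespace Pool.Agent.H3.MX

open Filter Topology
open Pool.Agent.H4.Atiyah Pool.Agent.H78.RA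

variable {κ₀ κ₁ κ₂ G : Type*} [Group G] [DecidableEq κ₀] [DecidableEq κ₁] [DecidableEq κ₂]
  [DecidableEq G] [Fintype κ₀] [Fintype κ₁] [Fintype κ₂]

theorem hasProj {κ : Type*} {X : Submodule ℂ (LL κ G)} (h : IsClosed (X : Set (LL κ G))) :
    X.HasOrthogonalProjection := by
  have : CompleteSpace X := h.completeSpace_coe
  infer_instance

theorem approx_sub (d₁ e₁ : LL κ₁ G →L[ℂ] LL κ₀ G) (d₂ e₂ : LL κ₂ G →L[ℂ] LL κ₁ G)
    (a₀ : LL κ₀ G →L[ℂ] LL κ₀ G) (a₁ : LL κ₁ G →L[ℂ] LL κ₁ G) (a₂ : LL κ₂ G →L[ℂ] LL κ₂ G)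
    (X₁ : Submodule ℂ (LL κ₁ G)) (X₂ : Submodule ℂ (LL κ₂ G))
    (hX₁ : IsClosed (X₁ : Set (LL κ₁ G))) (hX₂ : IsClosed (X₂ : Set (LL κ₂ G)))
    (hI₁ : Pool.Agent.H78.RA.Inv X₁) (hI₂ : Pool.Agent.H78.RA.Inv X₂) (hd₁ : Eqv d₁)
    (hd₂ : Eqv d₂) (he₂ : Eqv e₂) (ha₁ : Eqv a₁) (ha₂ : Eqv a₂) (hdX : ∀ x ∈ X₂, d₂ x ∈ X₁)
    (haX₁ : ∀ x ∈ X₁, a₁ x ∈ X₁) (haX₂ : ∀ x ∈ X₂, a₂ x ∈ X₂)
    (hdd : ∀ x ∈ X₂, d₁ (d₂ x) = 0) (hc₁ : ∀ x ∈ X₁, e₁ (a₁ x) = a₀ (d₁ x))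
    (hc₂ : ∀ x ∈ X₂, e₂ (a₂ x) = a₁ (d₂ x)) (hi₁ : ∀ x ∈ X₁, a₁ x = 0 → x = 0)
    (hi₂ : ∀ x ∈ X₂, a₂ x = 0 → x = 0) (hex : ∀ x ∈ X₁, e₁ x = 0 → ∃ w ∈ X₂, e₂ w = x)
    (x : LL κ₁ G) (hx : x ∈ X₁) (hdx : d₁ x = 0) (ε : ℝ) (hε : 0 < ε) :
    ∃ y ∈ X₂, ‖x - d₂ y‖ < ε := by
  have : X₁.HasOrthogonalProjection := hasProj hX₁
  have : X₂.HasOrthogonalProjection := hasProj hX₂
  have : (kr d₁ ⊓ X₁).HasOrthogonalProjection := hasProj (by
    rw [Submodule.coe_inf]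
    exact (isClosed_kr d₁).inter hX₁)
  have : (kr e₁ ⊓ X₁).HasOrthogonalProjection := hasProj (by
    rw [Submodule.coe_inf]
    exact (isClosed_kr e₁).inter hX₁)
  have hp : ∀ y, X₂.starProjection y ∈ X₂ := fun y => Submodule.starProjection_apply_mem _ _
  have hpx : ∀ y ∈ X₂, X₂.starProjection y = y := fun y hy =>
    Submodule.starProjection_eq_self_iff.2 hy
  set R : LL κ₂ G →L[ℂ] LL κ₁ G := d₂ ∘L X₂.starProjection with hR
  set R' : LL κ₂ G →L[ℂ] LL κ₁ G := e₂ ∘L X₂.starProjection with hR'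
  have eR : Eqv R := hd₂.comp (eqv_proj hI₂)
  have eR' : Eqv R' := he₂.comp (eqv_proj hI₂)
  have hRa : ∀ y, R y = d₂ (X₂.starProjection y) := fun _ => rfl
  have hRa' : ∀ y, R' y = e₂ (X₂.starProjection y) := fun _ => rfl
  have b1 := gdim_kr R eR
  have b2 := gdim_kr R' eR'
  have iZ : Pool.Agent.H78.RA.Inv (kr d₁ ⊓ X₁) := fun g y hy => ⟨Inv.kr hd₁ g y hy.1, hI₁ g y hy.2⟩
  have m1 : gdim (kr d₁ ⊓ X₁) ≤ gdim (kr e₁ ⊓ X₁) := by
    refine gdim_le_of_injOn iZ a₁ ha₁ ?_ (fun y hy => hi₁ y hy.2)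
    intro y hy
    refine ⟨(mem_kr _ _).2 ?_, haX₁ y hy.2⟩
    rw [hc₁ y hy.2, (mem_kr _ _).1 hy.1, map_zero]
  -- the kernels
  set T : LL κ₂ G →L[ℂ] LL κ₂ G := a₂ ∘L X₂.starProjection +
    (ContinuousLinearMap.id ℂ (LL κ₂ G) - X₂.starProjection) with hT
  have eT : Eqv T := (ha₂.comp (eqv_proj hI₂)).add (Eqv.id.sub (eqv_proj hI₂))
  have hTa : ∀ y, T y = a₂ (X₂.starProjection y) + (y - X₂.starProjection y) := fun _ => rfl
  have hTp : ∀ y, X₂.starProjection (T y) = a₂ (X₂.starProjection y) := by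
    intro y
    rw [hTa, map_add, map_sub, hpx _ (haX₂ _ (hp y)), hpx _ (hp y), sub_self, add_zero]
  have m2 : gdim (kr R) ≤ gdim (kr R') := by
    refine gdim_le_of_injOn (Inv.kr eR) T eT ?_ ?_
    · intro y hy
      rw [mem_kr, hRa', hTp, hc₂ _ (hp y), ← hRa, (mem_kr _ _).1 hy, map_zero]
    · intro y _ hy
      have h1 : X₂.starProjection y = 0 := by
        apply hi₂ _ (hp y)
        rw [← hTp, hy, map_zero]
      rw [hTa, h1, map_zero, zero_add, sub_zero] at hy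
      exact hy
  have m3 : gdim (kr e₁ ⊓ X₁) ≤ gdim (kr (ContinuousLinearMap.adjoint R'))ᗮ := by
    apply gdim_mono
    intro y hy
    rw [Submodule.mem_orthogonal']
    intro v hv
    obtain ⟨w, hw, rfl⟩ := hex y hy.2 hy.1
    have h1 : e₂ w = R' w := by rw [hRa', hpx w hw]
    rw [h1, ← ContinuousLinearMap.adjoint_inner_right, (mem_kr _ _).1 hv, inner_zero_right]
  have m4 := gdim_orth (kr (ContinuousLinearMap.adjoint R'))
  have m5 := gdim_orth (kr (ContinuousLinearMap.adjoint R))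
  have hRZ : ∀ y, R y ∈ kr d₁ ⊓ X₁ := fun y => ⟨hdd _ (hp y), hdX _ (hp y)⟩
  have hle : (kr (ContinuousLinearMap.adjoint R))ᗮ ≤ kr d₁ ⊓ X₁ := by
    have h1 : (kr d₁ ⊓ X₁)ᗮ ≤ kr (ContinuousLinearMap.adjoint R) := by
      intro v hv
      rw [mem_kr]
      apply ext_inner_right ℂ
      intro w
      rw [ContinuousLinearMap.adjoint_inner_left, inner_zero_left]
      exact (Submodule.mem_orthogonal' _ _).1 hv _ (hRZ w)
    have h2 := Submodule.orthogonal_le h1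
    rwa [Submodule.orthogonal_orthogonal] at h2
  have key := gdim_faithful (Inv.kr eR.adjoint).orth iZ hle (by linarith)
  obtain ⟨y, hy⟩ := exists_approx R x (key ⟨hdx, hx⟩) ε hε
  exact ⟨X₂.starProjection y, hp y, hy⟩


end Pool.Agent.H3.MX
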