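import Pool.Agent.H3.MX.Sub
import Pool.Agent.H78.RA.Gen

/-!
# Graph products of infinite cyclic groups and finite groups: comparison with constant coefficients

The chains `f σ ∈ ℓ²(Γ)`, `σ` in a family of finite sets, with `∑ h ∈ K v, f σ (g h) = 0` for `v ∈ σ`
(no condition if `K v = 0`). The boundary in the direction `v` is the identity for the letters with
`F v`, multiplication by `t v - 1` for the others.
-/

set_option autoImplicit false
set_option linter.unusedSectionVars false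

namespace Pool.Agent.H3.MX

open Finset
open Pool.Agent.H4.Atiyah Pool.Agent.H78.RA

section

open Classical

variable {V : Type*} [Fintype V] {Γ : Type*} [Group Γ]

/-- the sum of the right translates by the elements of `K` -/
noncomputable def Kop (K : Multiset Γ) : BB Γ := (K.map fun h => (Eop () () h⁻¹ : BB Γ)).sum

theorem Kop_zero : Kop (0 : Multiset Γ) = 0 := by
  unfold Kop
  rw [Multiset.map_zero, Multiset.sum_zero]

theorem Kop_cons (h : Γ) (K : Multiset Γ) : Kop (h ::ₘ K) = Eop () () h⁻¹ + Kop K := by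
  unfold Kop
  rw [Multiset.map_cons, Multiset.sum_cons]

theorem Kop_apply (K : Multiset Γ) (x : LL Unit Γ) (g : Γ) :
    Kop K x ((), g) = (K.map fun h => x ((), g * h)).sum := by
  induction K using Multiset.induction_on with
  | empty =>
    rw [Kop_zero, Multiset.map_zero, Multiset.sum_zero]
    rfl
  | cons h K ih =>
    rw [Kop_cons, Multiset.map_cons, Multiset.sum_cons, ← ih]
    show (Eop () () h⁻¹ x : LL Unit Γ) ((), g) + Kop K x ((), g) = _
    rw [Eop_apply, if_pos rfl, inv_inv]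

theorem eqv_Kop (K : Multiset Γ) : Eqv (Kop K) := by
  induction K using Multiset.induction_on with
  | empty =>
    rw [Kop_zero]
    exact Eqv.zero
  | cons h K ih =>
    rw [Kop_cons]
    exact (eqv_Eop () () h⁻¹).add ih

theorem Kop_Nt (K : Multiset Γ) (t : Γ) (h : ∀ k ∈ K, k * t = t * k) (x : LL Unit Γ) :
    Kop K (Nt t x) = Nt t (Kop K x) := by
  ext ⟨-, g⟩
  rw [Kop_apply, Nt_apply, Kop_apply, Kop_apply]
  have h1 : ∀ k ∈ K, Nt t x ((), g * k) = x ((), g * t⁻¹ * k) - x ((), g * k) := by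
    intro k hk
    rw [Nt_apply]
    have h2 : k * t⁻¹ = t⁻¹ * k := by
      rw [mul_inv_eq_iff_eq_mul, mul_assoc, h k hk, inv_mul_cancel_left]
    rw [mul_assoc, h2, mul_assoc]
  rw [Multiset.map_congr rfl h1, Multiset.sum_map_sub]

/-- the chains with vanishing sums over `K v` -/
noncomputable def Xs (K : V → Multiset Γ) (P : Finset V → Prop) : Submodule ℂ (LL (Ix P) Γ) :=
  ⨅ (σ : Ix P) (v : V) (_ : v ∈ σ.1), kr (Kop (K v) ∘L pr σ)

theorem mem_Xs (K : V → Multiset Γ) (P : Finset V → Prop) (x : LL (Ix P) Γ) :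
    x ∈ Xs K P ↔ ∀ σ, ∀ v ∈ σ, Kop (K v) (cp P x σ) = 0 := by
  unfold Xs
  simp only [Submodule.mem_iInf, mem_kr]
  constructor
  · intro h σ v hv
    by_cases hσ : P σ
    · rw [cp_pos _ _ hσ]
      exact h ⟨σ, hσ⟩ v hv
    · rw [cp_neg _ _ hσ, map_zero]
  · intro h σ v hv
    have h1 := h σ.1 v hv
    rw [cp_pos _ _ σ.2] at h1
    exact h1

theorem isClosed_Xs (K : V → Multiset Γ) (P : Finset V → Prop) :
    IsClosed (Xs K P : Set (LL (Ix P) Γ)) := by
  unfold Xs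
  simp only [Submodule.coe_iInf]
  exact isClosed_iInter fun σ => isClosed_iInter fun v => isClosed_iInter fun _ => isClosed_kr _

theorem inv_Xs (K : V → Multiset Γ) (P : Finset V → Prop) : Pool.Agent.H78.RA.Inv (Xs K P) := by
  intro g x hx
  unfold Xs at hx ⊢
  simp only [Submodule.mem_iInf] at hx ⊢
  intro σ v hv
  exact Inv.kr ((eqv_Kop (K v)).comp (eqv_Eop σ () 1)) g x (hx σ v hv)

/-- the element of `ℓ²` with given components -/
theorem exists_of_cp (R : Finset V → Prop) (y : Finset V → LL Unit Γ) (hy : ∀ σ, y σ ≠ 0 → R σ) :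
    ∃ w : LL (Ix R) Γ, ∀ σ, cp R w σ = y σ := by
  refine ⟨∑ σ : Ix R, inc σ (y σ.1), fun σ => ?_⟩
  by_cases h : R σ
  · rw [cp_pos _ _ h, map_sum, Finset.sum_eq_single (⟨σ, h⟩ : Ix R)]
    · rw [pr_inc, if_pos rfl]
    · intro b _ hb
      rw [pr_inc, if_neg (Ne.symm hb)]
    · intro h1
      exact absurd (Finset.mem_univ _) h1
  · rw [cp_neg _ _ h]
    by_contra h0
    exact h (hy σ (Ne.symm h0))

/-- **The comparison theorem on the chains with vanishing sums**, operator form. -/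
theorem approx_ops (ν : V → ℕ) (hν : Function.Injective ν) {P Q R : Finset V → Prop}
    (hPQ : Faces P Q) (hRP : Faces R P) (K : V → Multiset Γ) (N : Finset V → V → BB Γ)
    (α : Finset V → BB Γ) (hN : ∀ τ v, Eqv (N τ v)) (hα : ∀ σ, Eqv (α σ))
    (hmul : ∀ τ v, v ∉ τ → (P (insert v τ) ∨ R (insert v τ)) → α (insert v τ) = α τ * N τ v)
    (hinj : ∀ σ, (P σ ∨ Q σ ∨ R σ) → ∀ x, α σ x = 0 → x = 0)
    (hKN : ∀ τ v, v ∉ τ → R (insert v τ) → ∀ u ∈ τ, ∀ x,
      Kop (K u) (N τ v x) = N τ v (Kop (K u) x))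
    (hKα : ∀ σ, (P σ ∨ R σ) → ∀ u ∈ σ, ∀ x, Kop (K u) (α σ x) = α σ (Kop (K u) x))
    (hex : ∀ f : Finset V → LL Unit Γ, (∀ σ, f σ ≠ 0 → P σ) →
      (∀ σ, ∀ v ∈ σ, Kop (K v) (f σ) = 0) → bd ν f = 0 → ∃ y : Finset V → LL Unit Γ,
        (∀ σ, y σ ≠ 0 → R σ) ∧ (∀ σ, ∀ v ∈ σ, Kop (K v) (y σ) = 0) ∧ bd ν y = f)
    (x : LL (Ix P) Γ) (hx : x ∈ Xs K P) (hd : DopG ν P Q N x = 0) (ε : ℝ) (hε : 0 < ε) :
    ∃ y ∈ Xs K R, ‖x - DopG ν R P N y‖ < ε := by
  have h1 : ∀ v : V, Eqv (1 : BB Γ) := fun _ => Eqv.one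
  have hA : ∀ T : Finset V → Prop, (∀ σ, T σ → P σ ∨ Q σ ∨ R σ) → ∀ x : LL (Ix T) Γ,
      Aop T α x = 0 → x = 0 := by
    intro T hT x hx
    apply cp_ext
    intro σ
    rw [cp_zero]
    by_cases h : T σ
    · apply hinj σ (hT σ h)
      rw [← cp_Aop, hx, cp_zero]
    · exact cp_neg _ _ h
  have c1 := chain_mapG ν hPQ N α fun τ v hv h => hmul τ v hv (Or.inl h)
  have c2 := chain_mapG ν hRP N α fun τ v hv h => hmul τ v hv (Or.inr h)
  have hXA : ∀ T : Finset V → Prop, (∀ σ, T σ → P σ ∨ R σ) → ∀ x ∈ Xs K T, Aop T α x ∈ Xs K T := by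
    intro T hT x hx
    rw [mem_Xs] at hx ⊢
    intro σ v hv
    rw [cp_Aop]
    by_cases h : T σ
    · rw [hKα σ (hT σ h) v hv, hx σ v hv, map_zero]
    · rw [cp_neg _ _ h, map_zero, map_zero]
  refine approx_sub (DopG ν P Q N) (Dop ν P Q fun _ => 1) (DopG ν R P N) (Dop ν R P fun _ => 1)
    (Aop Q α) (Aop P α) (Aop R α) (Xs K P) (Xs K R) (isClosed_Xs K P) (isClosed_Xs K R)
    (inv_Xs K P) (inv_Xs K R) (eqv_DopG ν P Q _ hN) (eqv_DopG ν R P _ hN) (eqv_Dop ν R P _ h1)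
    (eqv_Aop P _ hα) (eqv_Aop R _ hα) ?_ (hXA P fun σ h => Or.inl h)
    (hXA R fun σ h => Or.inr h) ?_ (fun x _ => c1 x) (fun x _ => c2 x)
    (fun x _ => hA P (fun σ h => Or.inl h) x) (fun x _ => hA R (fun σ h => Or.inr (Or.inr h)) x)
    ?_ x hx hd ε hε
  · -- the boundary preserves the condition
    intro y hy
    rw [mem_Xs] at hy ⊢
    intro τ u hu
    rw [cp_DopG ν hRP, map_sum]
    refine Finset.sum_eq_zero fun v hv => ?_
    rw [map_zsmul]
    by_cases h : R (insert v τ)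
    · rw [hKN τ v (Finset.mem_compl.1 hv) h u hu, hy _ u (Finset.mem_insert_of_mem hu), map_zero,
        smul_zero]
    · rw [cp_neg _ _ h, map_zero, map_zero, smul_zero]
  · intro y _
    apply hA Q fun σ h => Or.inr (Or.inl h)
    rw [← c1, ← c2, Dop_Dop ν hν hRP hPQ]
  · intro f hf hfe
    have hfe' : bd ν (cp P f) = 0 := by
      funext τ
      rw [← cp_Dop_one ν hPQ, hfe, cp_zero]
      rfl
    obtain ⟨y, hy1, hy2, hy3⟩ := hex (cp P f) (fun σ => cp_supp f σ) ((mem_Xs K P f).1 hf) hfe'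
    obtain ⟨w, hw⟩ := exists_of_cp R y hy1
    have hw' : cp R w = y := funext hw
    refine ⟨w, (mem_Xs K R w).2 fun σ v hv => by rw [hw]; exact hy2 σ v hv, ?_⟩
    apply cp_ext
    intro τ
    rw [cp_Dop_one ν hRP, hw', hy3]

end

end Pool.Agent.H3.MX
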